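import Pool.Agent.H80.SH.Defs

/-!
# Strong ETH for shallow semantic dag-like refutations: targets of the modules

Every other target may be used as a hypothesis.
-/

namespace Pool.Agent.H80.SH

open Finset

/-! ## The random formula -/

/-- BLD: number of lists with admissible choices -/
def T_BLD : Prop :=
  ∀ (α : Type) [DecidableEq α] (nx : List α → Finset α) (c N T : ℕ),
    (∀ l, c * (nx l).card ≤ N) →
    c ^ T * (build nx T).card ≤ N ^ T ∧ ∀ l ∈ build nx T, l.length = T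

/-- TUP: formulas containing a list of `G` at distinct indices -/
def T_TUP : Prop :=
  ∀ (α : Type) [Fintype α] [DecidableEq α] (m T : ℕ) (G : Finset (List α)),
    (∀ l ∈ G, l.length = T) →
    ∃ B : Finset (Fin m → α),
      B.card * Fintype.card α ^ T ≤ m ^ T * G.card * Fintype.card α ^ m ∧
      ∀ F : Fin m → α, (∃ l : List (Fin m), l.Nodup ∧ l.map F ∈ G) → F ∈ B

/-- BAD: a formula which is not good contains an admissible list of length `T` -/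
def T_BAD : Prop :=
  ∀ (X α : Type) [Fintype X] [DecidableEq X] [Fintype α] [DecidableEq α] (V : α → Finset X)
    (L : Finset (Finset X)) (m g H T M : ℕ) (F : Fin m → α),
    ¬ Good (fun j => V (F j)) L g H T M →
    ∃ A ∈ L, ∃ P ∈ PS L M, ∃ R ≤ T, ∃ l : List (Fin m), l.Nodup ∧
      l.map F ∈ build (nxt V g H A P R) T

/-- GOO: most formulas are good -/
def T_GOO : Prop :=
  ∀ (X α : Type) [Fintype X] [DecidableEq X] [Fintype α] [DecidableEq α] [Nonempty α]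
    (V : α → Finset X) (L : Finset (Finset X)) (m g H T M : ℕ),
    (∀ A : Finset X, 2 ^ g ≤ A.card → 4 * m * (dense V H A).card ≤ Fintype.card α) →
    4 * (L.card * (PS L M).card * (T + 1)) ≤ 4 ^ T →
    ∃ B : Finset (Fin m → α), 4 * B.card ≤ Fintype.card α ^ m ∧
      ∀ F, F ∉ B → Good (fun j => V (F j)) L g H T M

/-- PSC: path sets -/
def T_PSC : Prop :=
  ∀ (X : Type) [Fintype X] [DecidableEq X] (L : Finset (Finset X)),
    (∀ M, (PS L M).card ≤ (2 * L.card + 1) ^ M) ∧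
    (∀ M M', M ≤ M' → PS L M ⊆ PS L M') ∧
    (∀ M P A, P ∈ PS L M → A ∈ L → P ∩ A ∈ PS L (M + 1)) ∧
    ∀ (S : ℕ) (A : Fin S → Finset X) (I : Finset (Fin S)) (M : ℕ) (P : Finset X),
      (∀ i, A i ∈ L) → P ∈ PS L M → P.filter (fun x => ∀ a ∈ I, x ∉ A a) ∈ PS L (M + I.card)

/-! ## Combinatorics of a good formula -/

/-- STP: the potential under a splitting of `K` -/
def T_STP : Prop :=
  ∀ (X ι : Type) [DecidableEq X] [Fintype ι] (V : ι → Finset X) (H T S : ℕ) (K : Finset X)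
    (I : Finset (Fin S)) (Ka : Fin S → Finset X),
    (∀ a ∈ I, Ka a ⊆ K) → (∀ a ∈ I, ∀ b ∈ I, a ≠ b → Disjoint (Ka a) (Ka b)) →
    (∀ a ∈ I, (dense V H (Ka a)).card ≤ T) →
    H * ∑ a ∈ I, pot V H (Ka a) ≤ H * pot V H K + I.card * T * K.card

/-- UNB: a union bound -/
def T_UNB : Prop :=
  ∀ (X ι : Type) [DecidableEq X] [Fintype ι] (V : ι → Finset X) (H : ℕ) (K : Finset X)
    (J : Finset ι),
    H * (K.filter (fun x => ∃ j ∈ J, x ∈ V j)).card ≤ H * pot V H K + J.card * K.card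

/-- WLK: `t` steps from the line `u` inside a path class `K = cut ∩ P` -/
def T_WLK : Prop :=
  ∀ (X ι : Type) [Fintype X] [DecidableEq X] [Fintype ι] [DecidableEq ι] (V : ι → Finset X)
    (L : Finset (Finset X)) (S D k q g H T M : ℕ) (R : Ref V L S D (2 ^ k) q)
    (cl : Fin S → List ι),
    Good V L g H T M → (∀ u, Chain V g H (R.A u) (cl u)) →
    ∀ (v : Fin S) (t : ℕ) (u : Fin S) (r : ℕ) (P : Finset X), P ∈ PS L r → r + t * 2 ^ k ≤ M →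
      cut V (R.A v) (cl v) ∩ P ⊆ R.A u → 2 ^ g ≤ (cut V (R.A v) (cl v) ∩ P).card →
      ∃ W ⊆ cut V (R.A v) (cl v) ∩ P,
        (∀ z ∈ W, ∃ u', R.dep u' + t ≤ R.dep u ∧ z ∈ cut V (R.A u') (cl u')) ∧
        H * ((cut V (R.A v) (cl v) ∩ P) \ W).card ≤
          H * (2 ^ (k * t) * 2 ^ g) + (t + 1) * (H * pot V H (cut V (R.A v) (cl v) ∩ P)) +
            (t + 1) ^ 2 * (2 ^ k * (q + T)) * (cut V (R.A v) (cl v) ∩ P).card

/-- PHS: one phase -/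
def T_PHS : Prop :=
  ∀ (X ι : Type) [Fintype X] [DecidableEq X] [Fintype ι] [DecidableEq ι] (V : ι → Finset X)
    (L : Finset (Finset X)) (S D k q g H T M : ℕ) (R : Ref V L S D (2 ^ k) q)
    (cl : Fin S → List ι),
    Good V L g H T M → (∀ u, Chain V g H (R.A u) (cl u)) →
    (∀ u, 2 ^ g ≤ (cut V (R.A u) (cl u)).card → dense V H (cut V (R.A u) (cl u)) = ∅) →
    3 ≤ g →
    ∀ (v : Fin S) (t b : ℕ), 2 ^ b ≤ (cut V (R.A v) (cl v)).card → k * t + 2 * g ≤ b →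
      t * 2 ^ k ≤ M → 8 * ((t + 1) ^ 2 * (2 ^ k * (q + T))) ≤ H →
      ∃ u', R.dep u' + t ≤ R.dep v ∧
        (cut V (R.A v) (cl v)).card ≤ 2 * S * (cut V (R.A u') (cl u')).card

/-- SUM: iteration of the phases -/
def T_SUM : Prop :=
  ∀ (X ι : Type) [Fintype X] [DecidableEq X] [Fintype ι] [DecidableEq ι] (V : ι → Finset X)
    (L : Finset (Finset X)) (S D n k q g H T M el : ℕ) (R : Ref V L S D (2 ^ k) q)
    (cl : Fin S → List ι),
    Good V L g H T M → (∀ u, Chain V g H (R.A u) (cl u)) →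
    (∀ u, 2 ^ g ≤ (cut V (R.A u) (cl u)).card → dense V H (cut V (R.A u) (cl u)) = ∅) →
    3 ≤ g → 1 ≤ k → 2 * S ≤ 2 ^ el → n * 2 ^ k ≤ M →
    8 * ((n + 1) ^ 2 * (2 ^ k * (q + T))) ≤ H →
    ∀ (N : ℕ) (v : Fin S), N ≤ n → 2 ^ (N + 2 * g + (k - 1)) ≤ (cut V (R.A v) (cl v)).card →
      N * (N + el) ≤ 2 * el * (k * R.dep v)

/-- CLO: maximal chains -/
def T_CLO : Prop :=
  ∀ (X ι : Type) [Fintype X] [DecidableEq X] [Fintype ι] (V : ι → Finset X)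
    (L : Finset (Finset X)) (g H T M : ℕ), Good V L g H T M →
    ∀ A ∈ L, ∃ l : List ι, Chain V g H A l ∧
      (2 ^ g ≤ (cut V A l).card → dense V H (cut V A l) = ∅)

/-- LOW: the bound for the refutations of a good formula -/
def T_LOW : Prop :=
  ∀ (X ι : Type) [Fintype X] [DecidableEq X] [Fintype ι] [DecidableEq ι] (V : ι → Finset X)
    (L : Finset (Finset X)) (S D n k q g H T M el : ℕ) (_ : Ref V L S D (2 ^ k) q),
    Good V L g H T M → Fintype.card X = 2 ^ n → (∀ j, H * (V j).card < 2 ^ n) →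
    3 ≤ g → 1 ≤ k → 2 * S ≤ 2 ^ el → n * 2 ^ k ≤ M →
    8 * ((n + 1) ^ 2 * (2 ^ k * (q + T))) ≤ H →
    ∀ N : ℕ, N + 2 * g + k ≤ n + 1 → N * (N + el) ≤ 2 * el * (k * D)

/-! ## Moments of a random clause -/

/-- CHO: binomial coefficients -/
def T_CHO : Prop :=
  ∀ n d w : ℕ, d ≤ n → n ^ w * (n - d).choose w ≤ (n - d) ^ w * n.choose w

/-- PRS: number of the clauses violated by two points -/
def T_PRS : Prop :=
  ∀ (n w : ℕ), w ≤ n → Fintype.card (Cl n w) = n.choose w * 2 ^ n ∧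
    (∀ x y : Fin n → Bool,
      (univ.filter (fun c : Cl n w => x ∈ VC c ∧ y ∈ VC c)).card * 2 ^ w =
        (n - dist x y).choose w * 2 ^ n) ∧
    (∀ x : Fin n → Bool,
      (univ.filter (fun c : Cl n w => x ∈ VC c)).card * 2 ^ w = Fintype.card (Cl n w)) ∧
    ∀ c : Cl n w, (VC c).card * 2 ^ w = 2 ^ n

/-- MOM: few clauses are dense in a large set -/
def T_MOM : Prop :=
  ∀ n w R el g H : ℕ, 1 ≤ n → 2 ≤ R → w = R * el → w ≤ n → ball n R * 2 ^ el ≤ 2 ^ g →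
    ∀ A : Finset (Fin n → Bool), 2 ^ g ≤ A.card →
      (dense (VC : Cl n w → _) H A).card * (2 ^ w * 2 ^ el) ≤ 2 * H ^ 2 * Fintype.card (Cl n w)

/-- BAL: size of the balls -/
def T_BAL : Prop :=
  ∀ E : ℕ, 1 ≤ E → ∃ R n₀ : ℕ, 2 ≤ R ∧ ∀ n, n₀ ≤ n → ball n R ≤ 2 ^ (n / E)

/-- FAR: in most formulas every point violates many clauses -/
def T_FAR : Prop :=
  ∀ ε : ℝ, 0 < ε → ∃ C : ℕ, 1 ≤ C ∧ ∀ (X α : Type) [Fintype X] [DecidableEq X] [Fintype α]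
    [DecidableEq α] [Nonempty α] (V : α → Finset X) (n w : ℕ), 1 ≤ n → Fintype.card X = 2 ^ n →
    (∀ x, (univ.filter (fun c => x ∈ V c)).card * 2 ^ w = Fintype.card α) →
    ∃ B : Finset (Fin (C * n * 2 ^ w) → α),
      4 * B.card ≤ Fintype.card α ^ (C * n * 2 ^ w) ∧
      ∀ F, F ∉ B → ∀ x, (1 - ε) * (C * n : ℝ) ≤
        ((univ.filter (fun j => x ∈ V (F j))).card : ℝ)

/-! ## Parameters -/

/-- ART: choice of the parameters: `w = R (13 s + 19 + C)`, `g = n / E`, `H = 2 ^ (6 s + 8)`,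
`T = 2 ^ (3 s + 2)`, `M = n 2 ^ s`, `m = C n 2 ^ w` -/
def T_ART : Prop :=
  ∀ E R C n₁ : ℕ, 1 ≤ E → 2 ≤ R → 1 ≤ C → ∃ K n₀ : ℕ, ∀ n s : ℕ, n₀ ≤ n → n ≤ 2 ^ s →
    K * s ≤ n →
    1 ≤ n ∧ 1 ≤ s ∧ n₁ ≤ n ∧ R * (13 * s + 19 + C) ≤ n ∧ R * (13 * s + 19 + C) ≤ K * s ∧
    n / (2 * E) + (13 * s + 19 + C) ≤ n / E ∧ 3 ≤ n / E ∧
    C * n * 2 ^ (R * (13 * s + 19 + C)) ≤ 2 ^ (K * s) ∧
    8 * C * n * (2 ^ (6 * s + 8)) ^ 2 ≤ 2 ^ (13 * s + 19 + C) ∧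
    2 ^ (6 * s + 8) < 2 ^ (R * (13 * s + 19 + C)) ∧
    (∀ k, k ≤ s → 8 * ((n + 1) ^ 2 * (2 ^ k * (2 ^ s + 2 ^ (3 * s + 2)))) ≤ 2 ^ (6 * s + 8)) ∧
    (∀ a b : ℕ, a ≤ 2 ^ 2 ^ s → b ≤ (2 * a + 1) ^ (n * 2 ^ s) →
      4 * (a * b * (2 ^ (3 * s + 2) + 1)) ≤ 4 ^ 2 ^ (3 * s + 2)) ∧
    (∀ k, k ≤ s → E * n ≤ E * (n + 1 - 2 * (n / E) - k) + 3 * n)

/-- FRM: the final inequality -/
def T_FRM : Prop :=
  ∀ ε : ℝ, 0 < ε → ε ≤ 1 / 2 → ∀ n N S D k : ℕ, 1 ≤ n → N ≤ n → (1 - ε / 4) * n ≤ N →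
    n ≤ k * D → 1 ≤ S →
    N * (N + (Nat.clog 2 S + 1)) ≤ 2 * (Nat.clog 2 S + 1) * (k * D) →
    (2 : ℝ) ^ ((1 - ε) * (n : ℝ) ^ 2 / (2 * k * D - n) - 2) ≤ S

end Pool.Agent.H80.SH
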