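import Pool.Agent.H80.SH.Targets

/-!
# Strong ETH for shallow semantic dag-like refutations: assembly of the targets
-/

namespace Pool.Agent.H80.SH

open Finset

theorem viol_toClause {n w : ℕ} (c : Cl n w) : (toClause c).Viol = VC c := by
  ext x
  simp only [Clause.Viol, toClause, VC, mem_filter, mem_univ, true_and, mem_image]
  constructor
  · intro h i hi
    have h1 := h (i, !c.2 i) ⟨i, hi, rfl⟩
    simp only [ne_eq] at h1
    cases hx : x i <;> cases hc : c.2 i <;> simp_all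
  · rintro h l ⟨i, hi, rfl⟩
    have h1 := h i hi
    simp [h1]

theorem card_toClause {n w : ℕ} (c : Cl n w) : (toClause c).card = w := by
  unfold toClause
  rw [card_image_of_injective, c.1.2]
  intro i j h
  exact (Prod.mk.inj h).1

theorem card_fst_toClause {n w : ℕ} (c : Cl n w) : ((toClause c).image Prod.fst).card = w := by
  unfold toClause
  rw [image_image]
  have h : (Prod.fst ∘ fun i => (i, !c.2 i)) = (id : Fin n → Fin n) := by
    funext i
    rfl
  rw [h, image_id, c.1.2]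

/-- conversion of a refutation -/
def toRef {n m w : ℕ} (F : Fin m → Cl n w) {L : Finset (Finset (Fin n → Bool))} {S D b q : ℕ}
    (R : Refutation (fun j => toClause (F j)) L S D b q) :
    Ref (fun j => VC (F j)) L S D b q where
  A := R.A
  dep := R.dep
  P := R.P
  J := R.J
  mem := R.mem
  card_P := R.card_P
  card_J := R.card_J
  lt := R.lt
  sound := by
    intro i x hx
    rcases R.sound i x hx with h | ⟨j, hj, hx⟩
    · exact Or.inl h
    · refine Or.inr ⟨j, hj, ?_⟩
      rw [viol_toClause] at hx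
      exact hx
  root := R.root

/-- the formula, for small `ε` -/
theorem fin_small (hGOO : T_GOO) (hPSC : T_PSC) (hLOW : T_LOW) (hPRS : T_PRS) (hMOM : T_MOM)
    (hBAL : T_BAL) (hFAR : T_FAR) (hART : T_ART) (hFRM : T_FRM) (ε : ℝ) (hε : 0 < ε)
    (hε2 : ε ≤ 1 / 2) : ∃ K n₀ : ℕ, ∀ n s : ℕ, n₀ ≤ n → n ≤ 2 ^ s → K * s ≤ n →
    ∀ L : Finset (Finset (Fin n → Bool)), L.card ≤ 2 ^ 2 ^ s →
      ∃ (w m : ℕ) (F : Fin m → Clause n), 1 ≤ m ∧ m ≤ 2 ^ (K * s) ∧ w ≤ K * s ∧
        (∀ i, (F i).card = w ∧ ((F i).image Prod.fst).card = w) ∧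
        (∀ x, (1 - ε) * (m / 2 ^ w) ≤
          ((Finset.univ.filter (fun i => x ∈ (F i).Viol)).card : ℝ)) ∧
        ∀ S D k : ℕ, 1 ≤ k → k ≤ s → n ≤ k * D →
          Nonempty (Refutation F L S D (2 ^ k) (2 ^ s)) →
          (2 : ℝ) ^ ((1 - ε) * (n : ℝ) ^ 2 / (2 * k * D - n) - 2) ≤ S := by
  obtain ⟨C, hC1, hfar⟩ := hFAR ε hε
  set E : ℕ := ⌈12 / ε⌉₊ with hE
  have hE1 : (12 / ε : ℝ) ≤ E := Nat.le_ceil _
  have hEpos : 1 ≤ E := by
    have : (0 : ℝ) < 12 / ε := by positivity
    have h2 : (0 : ℝ) < E := lt_of_lt_of_le this hE1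
    exact_mod_cast h2
  obtain ⟨R, n₁, hR, hball⟩ := hBAL (2 * E) (by omega)
  obtain ⟨K, n₀, hart⟩ := hART E R C n₁ hEpos hR hC1
  refine ⟨K, n₀, ?_⟩
  intro n s hn hns hKs L hL
  obtain ⟨h1, h2, h3, h4, h5, h6, h7, h8, h9, h10, h11, h12, h13⟩ := hart n s hn hns hKs
  set el : ℕ := 13 * s + 19 + C with hel
  set w : ℕ := R * el with hw
  set g : ℕ := n / E with hg
  set H : ℕ := 2 ^ (6 * s + 8) with hH
  set T : ℕ := 2 ^ (3 * s + 2) with hT
  obtain ⟨hp1, hp2, hp3, hp4⟩ := hPRS n w h4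
  have hclpos : 0 < Fintype.card (Cl n w) := by
    rw [hp1]
    exact Nat.mul_pos (Nat.choose_pos h4) (by positivity)
  have : Nonempty (Cl n w) := Fintype.card_pos_iff.mp hclpos
  have hcube : Fintype.card (Fin n → Bool) = 2 ^ n := by simp
  -- few dense clauses
  have hdense : ∀ A : Finset (Fin n → Bool), 2 ^ g ≤ A.card →
      4 * (C * n * 2 ^ w) * (dense (VC : Cl n w → _) H A).card ≤ Fintype.card (Cl n w) := by
    intro A hA
    have hb : ball n R * 2 ^ el ≤ 2 ^ g := by
      calc ball n R * 2 ^ el ≤ 2 ^ (n / (2 * E)) * 2 ^ el :=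
            Nat.mul_le_mul_right _ (hball n h3)
        _ = 2 ^ (n / (2 * E) + el) := (pow_add _ _ _).symm
        _ ≤ 2 ^ g := Nat.pow_le_pow_right (by norm_num) h6
    have hm := hMOM n w R el g H h1 hR rfl h4 hb A hA
    have hpos : 0 < 2 ^ el := by positivity
    refine Nat.le_of_mul_le_mul_right ?_ hpos
    calc 4 * (C * n * 2 ^ w) * (dense (VC : Cl n w → _) H A).card * 2 ^ el
        = 4 * (C * n) * ((dense (VC : Cl n w → _) H A).card * (2 ^ w * 2 ^ el)) := by ring
      _ ≤ 4 * (C * n) * (2 * H ^ 2 * Fintype.card (Cl n w)) := Nat.mul_le_mul_left _ hm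
      _ = (8 * C * n * H ^ 2) * Fintype.card (Cl n w) := by ring
      _ ≤ 2 ^ el * Fintype.card (Cl n w) := Nat.mul_le_mul_right _ h9
      _ = Fintype.card (Cl n w) * 2 ^ el := by ring
  obtain ⟨hs1, -, -, -⟩ := hPSC (Fin n → Bool) L
  obtain ⟨B1, hB1, hB1'⟩ := hGOO (Fin n → Bool) (Cl n w) VC L (C * n * 2 ^ w) g H T (n * 2 ^ s)
    hdense (h12 _ _ hL (hs1 _))
  obtain ⟨B2, hB2, hB2'⟩ := hfar (Fin n → Bool) (Cl n w) VC n w h1 hcube hp3
  -- a formula outside of both
  have hex : ∃ F : Fin (C * n * 2 ^ w) → Cl n w, F ∉ B1 ∪ B2 := by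
    by_contra hno
    push Not at hno
    have hall : B1 ∪ B2 = univ := by
      ext F
      simp only [mem_univ, iff_true]
      exact hno F
    have hc : (B1 ∪ B2).card = Fintype.card (Cl n w) ^ (C * n * 2 ^ w) := by
      rw [hall, card_univ]
      simp
    have hle := card_union_le B1 B2
    have hpos : 0 < Fintype.card (Cl n w) ^ (C * n * 2 ^ w) := pow_pos hclpos _
    omega
  obtain ⟨F, hF⟩ := hex
  rw [mem_union, not_or] at hF
  have hgood := hB1' F hF.1
  have hfarF := hB2' F hF.2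
  refine ⟨w, C * n * 2 ^ w, fun j => toClause (F j), ?_, h8, h5, ?_, ?_, ?_⟩
  · exact Nat.mul_pos (Nat.mul_pos hC1 h1) (by positivity)
  · intro i
    exact ⟨card_toClause _, card_fst_toClause _⟩
  · intro x
    have h := hfarF x
    have e1 : (((C * n * 2 ^ w : ℕ) : ℝ) / 2 ^ w) = (C * n : ℝ) := by
      push_cast
      field_simp
    rw [e1]
    simpa only [viol_toClause] using h
  · rintro S D k hk hks hkD ⟨Rf⟩
    have hRef := toRef F Rf
    have hS : 1 ≤ S := by
      obtain ⟨i, -, -⟩ := hRef.root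
      exact Nat.succ_le_of_lt (lt_of_le_of_lt (Nat.zero_le _) i.2)
    have hlow := hLOW (Fin n → Bool) (Fin (C * n * 2 ^ w)) (fun j => VC (F j)) L S D n k (2 ^ s)
      g H T (n * 2 ^ s) (Nat.clog 2 S + 1) hRef hgood hcube ?_ h7 hk ?_ ?_ (h11 k hks)
      (n + 1 - 2 * g - k) ?_
    · refine hFRM ε hε hε2 n (n + 1 - 2 * g - k) S D k h1 (by omega) ?_ hkD hS hlow
      have h := h13 k hks
      have hR : (E : ℝ) * n ≤ E * ((n + 1 - 2 * (n / E) - k : ℕ) : ℝ) + 3 * n := by
        exact_mod_cast h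
      have hEp : (0 : ℝ) < E := by exact_mod_cast hEpos
      have h12E : 12 ≤ ε * E := by
        rw [div_le_iff₀ hε] at hE1
        linarith
      have hn0 : (0 : ℝ) ≤ n := Nat.cast_nonneg _
      have key : (E : ℝ) * ((1 - ε / 4) * n) ≤ E * ((n + 1 - 2 * g - k : ℕ) : ℝ) := by
        nlinarith
      exact le_of_mul_le_mul_left key hEp
    · intro j
      have hc := hp4 (F j)
      have hV : 0 < (VC (F j)).card := by
        rcases Nat.eq_zero_or_pos (VC (F j)).card with h0 | h0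
        · rw [h0, zero_mul] at hc
          have : 0 < 2 ^ n := by positivity
          omega
        · exact h0
      rw [← hc]
      calc H * (VC (F j)).card < 2 ^ w * (VC (F j)).card := Nat.mul_lt_mul_of_pos_right h10 hV
        _ = (VC (F j)).card * 2 ^ w := by ring
    · have hcl := Nat.le_pow_clog (b := 2) (by norm_num) S
      rw [pow_succ]
      omega
    · exact Nat.mul_le_mul_left _ (Nat.pow_le_pow_right (by norm_num) hks)
    · have hgk : 2 * g + k ≤ n + 1 := by
        by_contra hcon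
        have hz : n + 1 - 2 * (n / E) - k = 0 := by omega
        have h := h13 k hks
        rw [hz] at h
        have hE24 : (24 : ℝ) ≤ E := by
          refine le_trans ?_ hE1
          rw [le_div_iff₀ hε]
          linarith
        have hE24' : 24 ≤ E := by exact_mod_cast hE24
        nlinarith
      omega

theorem fin (hGOO : T_GOO) (hPSC : T_PSC) (hLOW : T_LOW) (hPRS : T_PRS) (hMOM : T_MOM)
    (hBAL : T_BAL) (hFAR : T_FAR) (hART : T_ART) (hFRM : T_FRM) : Statement := by
  intro ε hε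
  obtain ⟨K, n₀, h⟩ := fin_small hGOO hPSC hLOW hPRS hMOM hBAL hFAR hART hFRM (min ε (1 / 2))
    (by positivity) (min_le_right _ _)
  refine ⟨K, max n₀ 1, ?_⟩
  intro n s hn hns hKs L hL
  have hn0 : n₀ ≤ n := le_trans (le_max_left _ _) hn
  have hn1 : 1 ≤ n := le_trans (le_max_right _ _) hn
  obtain ⟨w, m, F, h1, h2, h3, h4, h5, h6⟩ := h n s hn0 hns hKs L hL
  refine ⟨w, m, F, h1, h2, h3, h4, ?_, ?_⟩
  · intro x
    refine le_trans ?_ (h5 x)
    apply mul_le_mul_of_nonneg_right
    · have := min_le_left ε (1 / 2)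
      linarith
    · positivity
  · intro S D k hk hks hkD hR
    refine le_trans ?_ (h6 S D k hk hks hkD hR)
    apply Real.rpow_le_rpow_of_exponent_le (by norm_num)
    have hkD' : (n : ℝ) ≤ k * D := by exact_mod_cast hkD
    have hn' : (1 : ℝ) ≤ n := by exact_mod_cast hn1
    have hpos : (0 : ℝ) < 2 * k * D - n := by nlinarith
    have hm := min_le_left ε (1 / 2)
    have : (1 - ε) * (n : ℝ) ^ 2 / (2 * k * D - n) ≤
        (1 - min ε (1 / 2)) * (n : ℝ) ^ 2 / (2 * k * D - n) := by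
      apply div_le_div_of_nonneg_right _ hpos.le
      apply mul_le_mul_of_nonneg_right _ (by positivity)
      linarith
    linarith

end Pool.Agent.H80.SH
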