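import Pool.Agent.H80.SH.Stmt

/-!
# Strong ETH for shallow semantic dag-like refutations: definitions for the modules

`X` is the set of points (assignments), `V c` is the set of the points violating the clause `c`;
in the random formula the clauses `c` range over a finite type `α`, in a fixed formula over the
indices of its clauses.
-/

namespace Pool.Agent.H80.SH

open Finset

section
variable {X α : Type} [DecidableEq X]

/-- the points of `A` outside of the sets `V c`, `c ∈ l` -/
def cut (V : α → Finset X) (A : Finset X) (l : List α) : Finset X :=
  A.filter (fun x => ∀ c ∈ l, x ∉ V c)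

/-- the clauses which are dense in `A`: `|A| ≤ H |A ∩ V c|` -/
def dense [Fintype α] (V : α → Finset X) (H : ℕ) (A : Finset X) : Finset α :=
  univ.filter (fun c => A.card ≤ H * (A ∩ V c).card)

/-- chains for `A` (most recent clause first): every clause is dense in the set of the points of
`A` outside of the earlier ones, which has at least `2 ^ g` points -/
def Chain [Fintype α] (V : α → Finset X) (g H : ℕ) (A : Finset X) : List α → Prop
  | [] => True
  | c :: l => Chain V g H A l ∧ 2 ^ g ≤ (cut V A l).card ∧ c ∈ dense V H (cut V A l)

/-- potential of a set: total size of the intersections with its dense clauses -/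
def pot [Fintype α] (V : α → Finset X) (H : ℕ) (K : Finset X) : ℕ :=
  ∑ c ∈ dense V H K, (K ∩ V c).card

/-- intersections of at most `M` members of `L` or complements of members of `L` -/
def PS [Fintype X] (L : Finset (Finset X)) : ℕ → Finset (Finset X)
  | 0 => {univ}
  | M + 1 => PS L M ∪ (PS L M ×ˢ (L ∪ L.image compl)).image (fun p => p.1 ∩ p.2)

/-- chains for members of `L`, prolonged by dense clauses of the rest intersected with a path set,
are shorter than `T` -/
def Good [Fintype X] [Fintype α] (V : α → Finset X) (L : Finset (Finset X)) (g H T M : ℕ) : Prop :=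
  ∀ A ∈ L, ∀ l : List α, Chain V g H A l → l.length < T ∧
    ∀ P ∈ PS L M, 2 ^ g ≤ (cut V A l ∩ P).card →
      l.length + (dense V H (cut V A l ∩ P)).card < T

/-- lists of length `T` (most recent element first) with all choices admissible -/
def build [DecidableEq α] (nx : List α → Finset α) : ℕ → Finset (List α)
  | 0 => {[]}
  | T + 1 => (build nx T).biUnion (fun l => (nx l).image (fun c => c :: l))

/-- admissible choices: in the first `R` steps a dense clause of the rest of `A`, later a dense
clause of the rest after `R` steps intersected with `P` -/
def nxt [Fintype α] (V : α → Finset X) (g H : ℕ) (A P : Finset X) (R : ℕ) (l : List α) :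
    Finset α :=
  if l.length < R then
    (if 2 ^ g ≤ (cut V A l).card then dense V H (cut V A l) else ∅)
  else
    (if 2 ^ g ≤ (cut V A (l.drop (l.length - R)) ∩ P).card then
      dense V H (cut V A (l.drop (l.length - R)) ∩ P) else ∅)

end

/-- dag-like refutation of the family `V`, with lines in `L` -/
structure Ref {X ι : Type} [Fintype X] (V : ι → Finset X) (L : Finset (Finset X))
    (S D b q : ℕ) where
  A : Fin S → Finset X
  dep : Fin S → ℕ
  P : Fin S → Finset (Fin S)
  J : Fin S → Finset ι
  mem : ∀ i, A i ∈ L
  card_P : ∀ i, (P i).card ≤ b
  card_J : ∀ i, (J i).card ≤ q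
  lt : ∀ i, ∀ a ∈ P i, dep a < dep i
  sound : ∀ i, ∀ x ∈ A i, (∃ a ∈ P i, x ∈ A a) ∨ ∃ j ∈ J i, x ∈ V j
  root : ∃ i, A i = univ ∧ dep i ≤ D

/-- concrete clauses with `w` variables: a set of `w` variables and the violating pattern (only
its values on the set matter) -/
abbrev Cl (n w : ℕ) := {U : Finset (Fin n) // U.card = w} × (Fin n → Bool)

/-- the points violating a concrete clause -/
def VC {n w : ℕ} (c : Cl n w) : Finset (Fin n → Bool) :=
  univ.filter (fun x => ∀ i ∈ c.1.1, x i = c.2 i)

/-- the clause as a set of literals -/
def toClause {n w : ℕ} (c : Cl n w) : Clause n :=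
  c.1.1.image (fun i => (i, !c.2 i))

/-- number of coordinates in which two points differ -/
def dist {n : ℕ} (x y : Fin n → Bool) : ℕ := (univ.filter (fun i => x i ≠ y i)).card

/-- size of the ball of radius `n / R` (points `y` with less than `n / R` ones) -/
def ball (n R : ℕ) : ℕ :=
  (univ.filter (fun y : Fin n → Bool => R * (univ.filter (fun i => y i = true)).card < n)).card

end Pool.Agent.H80.SH
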