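import Pool.Agent.H80.SH.Targets

namespace Pool.Agent.H80.SH
open Finset

theorem frm : T_FRM := by
  intro ε hε hε2 n N S D k hn hNn hN hkD hS h
  set el : ℕ := Nat.clog 2 S + 1 with hel
  have hn' : (1 : ℝ) ≤ n := by exact_mod_cast hn
  have hNn' : (N : ℝ) ≤ n := by exact_mod_cast hNn
  have hkD' : (n : ℝ) ≤ (k : ℝ) * D := by exact_mod_cast hkD
  have hR : (N : ℝ) * (N + el) ≤ 2 * el * (k * D) := by exact_mod_cast h
  have hel1 : (1 : ℝ) ≤ el := by
    have : 1 ≤ el := by omega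
    exact_mod_cast this
  have hSel : (2 : ℝ) ^ ((el : ℝ) - 2) ≤ S := by
    rcases Nat.lt_or_ge S 2 with h2 | h2
    · have hS1 : S = 1 := by omega
      have : el = 1 := by
        rw [hel, hS1]
        simp
      rw [this, hS1]
      have e : ((1 : ℕ) : ℝ) - 2 = -1 := by norm_num
      rw [e, Real.rpow_neg_one]
      norm_num
    · have h3 : 2 ^ (Nat.clog 2 S - 1) < S := Nat.pow_pred_clog_lt_self (by norm_num) (by omega)
      have hc : 1 ≤ Nat.clog 2 S := Nat.clog_pos (by norm_num) h2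
      have e : (el : ℝ) - 2 = ((Nat.clog 2 S - 1 : ℕ) : ℝ) := by
        rw [hel, Nat.cast_sub hc]
        push_cast
        ring
      rw [e, Real.rpow_natCast]
      exact_mod_cast h3.le
  refine le_trans ?_ hSel
  apply Real.rpow_le_rpow_of_exponent_le (by norm_num)
  have hpos : (0 : ℝ) < 2 * k * D - n := by nlinarith
  suffices hs : (1 - ε) * (n : ℝ) ^ 2 / (2 * k * D - n) ≤ el by linarith
  rw [div_le_iff₀ hpos]
  set P : ℝ := (k : ℝ) * D with hP
  have e1 : (2 : ℝ) * k * D = 2 * P := by rw [hP]; ring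
  rw [e1] at hpos ⊢
  -- N ^ 2 ≤ el (2 P - N)
  have h1 : (N : ℝ) ^ 2 ≤ el * (2 * P - N) := by nlinarith
  have h0N : (0 : ℝ) ≤ (1 - ε / 4) * n := by
    apply mul_nonneg
    · linarith
    · linarith
  have h2 : ((1 - ε / 4) * n) ^ 2 ≤ (N : ℝ) ^ 2 := pow_le_pow_left₀ h0N hN 2
  have h3 : 2 * P - N ≤ (1 + ε / 4) * (2 * P - n) := by nlinarith
  have h4 : ((1 - ε / 4) * n) ^ 2 ≤ el * ((1 + ε / 4) * (2 * P - n)) :=
    le_trans h2 (le_trans h1 (mul_le_mul_of_nonneg_left h3 (by linarith)))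
  have h5 : (1 - ε) * (1 + ε / 4) ≤ (1 - ε / 4) ^ 2 := by nlinarith
  have h6 : (1 + ε / 4) * ((1 - ε) * (n : ℝ) ^ 2) ≤ (1 + ε / 4) * (el * (2 * P - n)) := by
    calc (1 + ε / 4) * ((1 - ε) * (n : ℝ) ^ 2) = ((1 - ε) * (1 + ε / 4)) * (n : ℝ) ^ 2 := by ring
      _ ≤ (1 - ε / 4) ^ 2 * (n : ℝ) ^ 2 := mul_le_mul_of_nonneg_right h5 (by positivity)
      _ = ((1 - ε / 4) * n) ^ 2 := by ring
      _ ≤ el * ((1 + ε / 4) * (2 * P - n)) := h4
      _ = (1 + ε / 4) * (el * (2 * P - n)) := by ring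
  exact le_of_mul_le_mul_left h6 (by linarith)

end Pool.Agent.H80.SH
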