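import Mathlib

/-!
# Strong ETH for shallow semantic dag-like refutations: the statement (MP_c62aed_lc)
-/

namespace Pool.Agent.H80.SH

/-- A clause over `n` variables: a finite set of literals; the literal `(i, v)` says `x i = v`. -/
abbrev Clause (n : ℕ) := Finset (Fin n × Bool)

/-- The set of the assignments which violate the clause `C`. -/
def Clause.Viol {n : ℕ} (C : Clause n) : Finset (Fin n → Bool) :=
  Finset.univ.filter (fun x => ∀ l ∈ C, x l.1 ≠ l.2)

/-- A dag-like semantic refutation, with `S` lines, of the CNF formula with the clauses `F j`.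
The line `i` is given by the set `A i`, a member of `L`, of the assignments which falsify it, and it
has a depth `dep i`.  Every assignment which falsifies the line `i` falsifies one of the at most `b`
lines in `P i`, which are all of smaller depth than `i`, or violates one of the at most `q` clauses
in `J i`.  Some line of depth at most `D` is falsified by all assignments. -/
structure Refutation {n m : ℕ} (F : Fin m → Clause n) (L : Finset (Finset (Fin n → Bool)))
    (S D b q : ℕ) where
  /-- the set of the assignments which falsify a line -/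
  A : Fin S → Finset (Fin n → Bool)
  /-- the depth of a line -/
  dep : Fin S → ℕ
  /-- the premises of a line -/
  P : Fin S → Finset (Fin S)
  /-- the clauses of the formula used for a line -/
  J : Fin S → Finset (Fin m)
  mem : ∀ i, A i ∈ L
  card_P : ∀ i, (P i).card ≤ b
  card_J : ∀ i, (J i).card ≤ q
  lt : ∀ i, ∀ a ∈ P i, dep a < dep i
  sound : ∀ i, ∀ x ∈ A i, (∃ a ∈ P i, x ∈ A a) ∨ ∃ j ∈ J i, x ∈ (F j).Viol
  root : ∃ i, A i = Finset.univ ∧ dep i ≤ D

/-- For every `ε > 0` there are `K` and `n₀` such that for all `n ≥ n₀`, all `s` with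
`log₂ n ≤ s ≤ n / K` and every family `L` of at most `2 ^ 2 ^ s` subsets of the cube there is a
CNF formula with `n` variables and `m ≤ 2 ^ (K s)` clauses, all with exactly `w ≤ K s` variables,
in which every assignment violates at least `(1 - ε) m / 2 ^ w` clauses, such that every
dag-like semantic refutation with lines in `L`, of depth `D`, with at most `2 ^ k` premises
(`1 ≤ k ≤ s`, `k D ≥ n`) and at most `2 ^ s` clauses of the formula per line has at least
`2 ^ ((1 - ε) n ^ 2 / (2 k D - n) - 2)` lines. -/
def Statement : Prop :=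
  ∀ ε : ℝ, 0 < ε → ∃ K n₀ : ℕ, ∀ n s : ℕ, n₀ ≤ n → n ≤ 2 ^ s → K * s ≤ n →
    ∀ L : Finset (Finset (Fin n → Bool)), L.card ≤ 2 ^ 2 ^ s →
      ∃ (w m : ℕ) (F : Fin m → Clause n), 1 ≤ m ∧ m ≤ 2 ^ (K * s) ∧ w ≤ K * s ∧
        (∀ i, (F i).card = w ∧ ((F i).image Prod.fst).card = w) ∧
        (∀ x, (1 - ε) * (m / 2 ^ w) ≤
          ((Finset.univ.filter (fun i => x ∈ (F i).Viol)).card : ℝ)) ∧
        ∀ S D k : ℕ, 1 ≤ k → k ≤ s → n ≤ k * D →
          Nonempty (Refutation F L S D (2 ^ k) (2 ^ s)) →
          (2 : ℝ) ^ ((1 - ε) * (n : ℝ) ^ 2 / (2 * k * D - n) - 2) ≤ S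

end Pool.Agent.H80.SH
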